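import Pool.Agent.Helper14.TT.StL

/-!
Project TT, MODULE Tree: symbols modulo 2 whose edge function is `α xy + β x + γ y`
-/

set_option autoImplicit false

namespace Pool.Agent.Helper85.TT

open Pool.Agent.Helper14.TT Pool.Agent.Helper14.CV

/-- The explicit value at the cusp `(p, q)` with `p + q` odd. -/
private def EE (α β γ h0 : ZMod 2) (p q : ℤ) : ZMod 2 :=
  if Even p then h0 + α * (((q ^ 2 - 1) / 8 : ℤ) : ZMod 2) + β * ((p / 2 : ℤ) : ZMod 2)
  else h0 + α * (((p ^ 2 - 1) / 8 : ℤ) : ZMod 2) + γ * ((q / 2 : ℤ) : ZMod 2)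

private lemma EE_even {α β γ h0 : ZMod 2} {p q : ℤ} (h : Even p) :
    EE α β γ h0 p q = h0 + α * (((q ^ 2 - 1) / 8 : ℤ) : ZMod 2) + β * ((p / 2 : ℤ) : ZMod 2) :=
  if_pos h

private lemma EE_odd {α β γ h0 : ZMod 2} {p q : ℤ} (h : Odd p) :
    EE α β γ h0 p q = h0 + α * (((p ^ 2 - 1) / 8 : ℤ) : ZMod 2) + γ * ((q / 2 : ℤ) : ZMod 2) :=
  if_neg (Int.not_even_iff_odd.2 h)

private lemma two_zero : (2 : ZMod 2) = 0 := by decide

private lemma half_neg {p : ℤ} (h : Even p) : ((-p / 2 : ℤ) : ZMod 2) = ((p / 2 : ℤ) : ZMod 2) := by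
  obtain ⟨k, rfl⟩ := h
  have e1 : -(k + k) / 2 = -k := by omega
  have e2 : (k + k) / 2 = k := by omega
  rw [e1, e2, Int.cast_neg, ZMod.neg_eq_self_mod_two]

private lemma EE_neg {α β γ h0 : ZMod 2} {p q : ℤ} (h : Odd (p + q)) :
    EE α β γ h0 (-p) (-q) = EE α β γ h0 p q := by
  rcases Int.even_or_odd p with hp | hp
  · rw [EE_even hp, EE_even hp.neg, neg_sq, half_neg hp]
  · have hq : Even q := by
      rcases Int.even_or_odd q with h1 | h1
      · exact h1
      · exact absurd (hp.add_odd h1) (Int.not_even_iff_odd.2 h)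
    rw [EE_odd hp, EE_odd hp.neg, neg_sq, half_neg hq]

/-- The squares. -/
private lemma sq_par {a b c d : ℤ} (h : a * d - 4 * (b * c) = 1) :
    ((((a ^ 2 - 1) / 8 : ℤ) : ZMod 2)) = (((d ^ 2 - 1) / 8 : ℤ) : ZMod 2) +
      (b : ZMod 2) * (c : ZMod 2) := by
  have h1 : Odd (a * d) := ⟨2 * (b * c), by linear_combination h⟩
  obtain ⟨ha, hd⟩ := Int.odd_mul.1 h1
  have e8 : ∀ x : ℤ, Odd x → x ^ 2 - 1 = 8 * ((x ^ 2 - 1) / 8) := by
    intro x hx
    have := Int.eight_dvd_sq_sub_one_of_odd hx
    omega
  have ea := e8 a ha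
  have ed := e8 d hd
  set A := (a ^ 2 - 1) / 8 with hA
  set D := (d ^ 2 - 1) / 8 with hD
  have e : A + D = b * c + 2 * ((b * c) ^ 2 - 4 * (A * D)) := by
    have e1 : (a * d) ^ 2 = (1 + 4 * (b * c)) ^ 2 := by
      have : a * d = 1 + 4 * (b * c) := by linarith
      rw [this]
    have e2 : a ^ 2 = 8 * A + 1 := by linarith
    have e3 : d ^ 2 = 8 * D + 1 := by linarith
    have e4 : (8 * A + 1) * (8 * D + 1) = (1 + 4 * (b * c)) ^ 2 := by
      rw [← e2, ← e3, ← e1]; ring
    nlinarith [e4]
  have e' := congrArg (fun z : ℤ => (z : ZMod 2)) e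
  push_cast at e'
  rw [two_zero, zero_mul, add_zero] at e'
  have hdd : (D : ZMod 2) + (D : ZMod 2) = 0 := CharTwo.add_self_eq_zero _
  linear_combination e' - hdd

/-- Parities of the coordinates. -/
private lemma par_of {r : ℕ} (hr : 1 ≤ r) {a b : ℤ} (ha : Odd a) {x : ZMod (2 ^ r)}
    (h : (b : ZMod (2 ^ r)) = x * a) : par x = (b : ZMod 2) := by
  have : NeZero (2 ^ r) := ⟨by positivity⟩
  have hd : 2 ∣ 2 ^ r := dvd_pow_self 2 (by omega)
  have e := congrArg (ZMod.castHom hd (ZMod 2)) h
  rw [map_mul, map_intCast, map_intCast] at e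
  have ha1 : (a : ZMod 2) = 1 := by
    obtain ⟨k, rfl⟩ := ha
    push_cast
    rw [two_zero, zero_mul, zero_add]
  rw [ha1, mul_one] at e
  rw [e]
  unfold par
  have := ZMod.natCast_zmod_val x
  rw [← map_natCast (ZMod.castHom hd (ZMod 2)) x.val, this]

/-- Every matrix has coordinates. -/
private lemma exPl {r s : ℕ} {a b c d : ℤ} (h : a * d - 2 ^ (1 + 1) * b * c = 1) :
    ∃ (x : ZMod (2 ^ r)) (y : ZMod (2 ^ s)), Pl 1 a b c d x y := by
  have ha : IsUnit (a : ZMod (2 ^ r)) := by
    rw [ZMod.coe_int_isUnit_iff_isCoprime]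
    push_cast
    exact IsCoprime.pow_left ⟨-2 * b * c, d, by linear_combination h⟩
  have hd : IsUnit (d : ZMod (2 ^ s)) := by
    rw [ZMod.coe_int_isUnit_iff_isCoprime]
    push_cast
    exact IsCoprime.pow_left ⟨-2 * b * c, a, by linear_combination h⟩
  refine ⟨b * (a : ZMod (2 ^ r))⁻¹, c * (d : ZMod (2 ^ s))⁻¹, h, ?_, ?_⟩
  · rw [mul_assoc, ZMod.inv_mul_of_unit _ ha, mul_one]
  · rw [mul_assoc, ZMod.inv_mul_of_unit _ hd, mul_one]

/-- `TREE`. -/
theorem hTree (hEdg : StEdg) (_hPlA : StPlA) : Tree := by
  intro r s H α β γ hr hs hH hF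
  set E := EE α β γ (H 1 0) with hE
  have hneg : ∀ p q : ℤ, (p ≠ 0 ∨ q ≠ 0) → H (-p) (-q) = H p q := by
    intro p q hpq
    have := hH.1 (-1) p q (by norm_num) hpq
    rwa [neg_one_mul, neg_one_mul] at this
  -- the edge relation
  have edge : ∀ a b c d : ℤ, a * d - 4 * (b * c) = 1 →
      (H a (2 * c) = E a (2 * c) ↔ H (2 * b) d = E (2 * b) d) := by
    intro a b c d h
    have h1 : Odd (a * d) := ⟨2 * (b * c), by linear_combination h⟩
    obtain ⟨ha, hd⟩ := Int.odd_mul.1 h1
    have hdet : a * d - 2 ^ (1 + 1) * b * c = 1 := by linear_combination h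
    obtain ⟨x, y, hp⟩ := exPl (r := r) (s := s) hdet
    have e := hEdg (ZMod 2) _ 1 r s H hH 1 0 0 1 (Or.inl one_ne_zero) (Or.inr one_ne_zero)
      x y a b c d hp
    rw [hF x y, par_of hr ha hp.2.1, par_of hs hd hp.2.2] at e
    have e1 : H (a * 1 + 2 ^ 1 * b * 0) (2 * c * 1 + d * 0) = H a (2 * c) := by
      congr 1 <;> ring
    have e2 : H (a * 0 + 2 ^ 1 * b * 1) (2 * c * 0 + d * 1) = H (2 * b) d := by
      congr 1 <;> ring
    rw [e1, e2] at e
    have f1 : E a (2 * c) = H 1 0 + α * (((a ^ 2 - 1) / 8 : ℤ) : ZMod 2) + γ * (c : ZMod 2) := by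
      rw [hE, EE_odd ha]
      have : 2 * c / 2 = c := by omega
      rw [this]
    have f2 : E (2 * b) d = H 1 0 + α * (((d ^ 2 - 1) / 8 : ℤ) : ZMod 2) + β * (b : ZMod 2) := by
      rw [hE, EE_even (even_two_mul b)]
      have : 2 * b / 2 = b := by omega
      rw [this]
    have f3 := sq_par h
    have f4 : E a (2 * c) - E (2 * b) d = H a (2 * c) - H (2 * b) d := by
      rw [← e, f1, f2, f3]
      have hb : β * (b : ZMod 2) + β * (b : ZMod 2) = 0 := CharTwo.add_self_eq_zero _
      linear_combination -hb
    constructor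
    · intro g
      rw [g] at f4
      have := sub_right_injective f4
      exact this.symm
    · intro g
      rw [g] at f4
      exact (sub_left_injective f4).symm
  have main : ∀ n : ℕ, ∀ p q : ℤ, q.natAbs = n → IsCoprime p q → Odd (p + q) → H p q = E p q := by
    intro n
    induction n using Nat.strong_induction_on with
    | _ n ih =>
      have key : ∀ p q : ℤ, 0 ≤ q → q.natAbs = n → IsCoprime p q → Odd (p + q) →
          H p q = E p q := by
        intro p q hq0 hqn hpq hodd
        rcases hq0.eq_or_lt with h0 | hq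
        · subst h0
          have hp : p = 1 ∨ p = -1 := Int.isUnit_iff.1 (isCoprime_zero_right.1 hpq)
          have h10 : H 1 0 = E 1 0 := by
            rw [hE, EE_odd odd_one]
            norm_num
          rcases hp with rfl | rfl
          · exact h10
          · have e1 := hneg 1 0 (Or.inl one_ne_zero)
            have e2 : E (-1) (-0) = E 1 0 := EE_neg (by decide)
            rw [neg_zero] at e1 e2
            rw [e1, e2, h10]
        · obtain ⟨u, v, huv⟩ := hpq
          set q' : ℤ := u % q with hq'
          set p' : ℤ := -(u / q * p + v) with hp'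
          have hdiv : u = q' + q * (u / q) := (Int.emod_add_mul_ediv u q).symm
          have hdet : p * q' - p' * q = 1 := by
            have e : p * q' - p' * q = (q' + q * (u / q)) * p + v * q := by rw [hp']; ring
            rw [e, ← hdiv, huv]
          have hq'0 : 0 ≤ q' := Int.emod_nonneg u hq.ne'
          have hqlt : q' < q := Int.emod_lt_of_pos u hq
          rcases Int.even_or_odd p with hp | hp
          · -- `p` even, `q` odd
            have hqo : Odd q := by
              rcases Int.even_or_odd q with h1 | h1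
              · exact absurd (hp.add h1) (Int.not_even_iff_odd.2 hodd)
              · exact h1
            obtain ⟨p2, q2, hdet2, hq2, hlt⟩ : ∃ p2 q2 : ℤ, p * q2 - p2 * q = 1 ∧ Even q2 ∧
                q2.natAbs < n := by
              rcases Int.even_or_odd q' with h1 | h1
              · exact ⟨p', q', hdet, h1, by omega⟩
              · refine ⟨p' - p, q' - q, by linear_combination hdet, h1.sub_odd hqo, ?_⟩
                have : q' ≠ 0 := by
                  rintro h2
                  rw [h2] at h1
                  exact absurd h1 (by decide)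
                omega
            obtain ⟨b, hb⟩ := hp
            obtain ⟨c, hc⟩ := hq2
            have hb2 : p = 2 * b := by omega
            have hc2 : q2 = 2 * c := by omega
            have hp2o : Odd p2 := by
              have : Odd (p2 * q) := ⟨b * q2 - 1, by rw [hb2] at hdet2; linear_combination -hdet2⟩
              exact (Int.odd_mul.1 this).1
            have hcop2 : IsCoprime p2 q2 := ⟨-q, p, by linear_combination hdet2⟩
            have g := ih q2.natAbs hlt p2 q2 rfl hcop2 (by
              rw [hc2]; exact hp2o.add_even (even_two_mul c))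
            have g2 : H (-p2) (-q2) = E (-p2) (-q2) := by
              rw [hneg p2 q2 (by
                left
                rintro rfl
                exact absurd hp2o (by decide)), g]
              exact (EE_neg (by rw [hc2]; exact hp2o.add_even (even_two_mul c))).symm
            have ed := edge (-p2) b (-c) q (by rw [hb2, hc2] at hdet2; linear_combination hdet2)
            rw [← hb2] at ed
            refine ed.1 ?_
            have : 2 * -c = -q2 := by rw [hc2]; ring
            rw [this]
            exact g2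
          · -- `p` odd, `q` even
            have hqe : Even q := by
              rcases Int.even_or_odd q with h1 | h1
              · exact h1
              · exact absurd (hp.add_odd h1) (Int.not_even_iff_odd.2 hodd)
            obtain ⟨c, hc⟩ := hqe
            have hc2 : q = 2 * c := by omega
            have hq'o : Odd q' := by
              have : Odd (p * q') := ⟨p' * c, by rw [hc2] at hdet; linear_combination hdet⟩
              exact (Int.odd_mul.1 this).2
            have hq'1 : q' ≠ 0 := by
              rintro h2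
              rw [h2] at hq'o
              exact absurd hq'o (by decide)
            obtain ⟨p2, q2, hdet2, hp2, hq2o, hlt⟩ : ∃ p2 q2 : ℤ, p * q2 - p2 * q = 1 ∧ Even p2 ∧
                Odd q2 ∧ q2.natAbs < n := by
              rcases Int.even_or_odd p' with h1 | h1
              · exact ⟨p', q', hdet, h1, hq'o, by omega⟩
              · refine ⟨p' - p, q' - q, by linear_combination hdet, h1.sub_odd hp, ?_, by omega⟩
                rw [hc2]
                exact hq'o.sub_even (even_two_mul c)
            obtain ⟨b, hb⟩ := hp2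
            have hb2 : p2 = 2 * b := by omega
            have hcop2 : IsCoprime p2 q2 := ⟨-q, p, by linear_combination hdet2⟩
            have g := ih q2.natAbs hlt p2 q2 rfl hcop2 (by
              rw [hb2]; exact (even_two_mul b).add_odd hq2o)
            have ed := edge p b c q2 (by rw [hb2, hc2] at hdet2; linear_combination hdet2)
            rw [← hc2] at ed
            refine ed.2 ?_
            rw [← hb2]
            exact g
      intro p q hqn hpq hodd
      rcases le_or_gt 0 q with hq | hq
      · exact key p q hq hqn hpq hodd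
      · have g := key (-p) (-q) (by omega) (by omega) hpq.neg_neg (by
          have : -p + -q = -(p + q) := by ring
          rw [this]
          exact hodd.neg)
        rw [hneg p q (Or.inr hq.ne)] at g
        rw [g]
        exact EE_neg hodd
  intro p q hpq
  refine ⟨fun h1 h2 => ?_, fun h1 h2 => ?_⟩
  · rw [main _ p q rfl hpq (h1.add_odd h2), hE, EE_even h1]
  · rw [main _ p q rfl hpq (h1.add_even h2), hE, EE_odd h1]

end Pool.Agent.Helper85.TT
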