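import Pool.Agent.Helper14.TT.StL

/-!
Project TT, MODULE UnbT: back to the group with lower left entry divisible by a power of two
-/

set_option autoImplicit false

namespace Pool.Agent.Helper85.TT

open Pool.Agent.Helper14.TT Pool.Agent.Helper14.CV
open Pool.Agent.Helper76.TX (eX evX evX_apply)

/-- The potential `G(2^r p, q)` with complex values. -/
private def Go (r : ℕ) (G : ℤ → ℤ → ℤ) : ℤ → ℤ → ℂ := fun p q => ((G (2 ^ r * p) q : ℤ) : ℂ)

private lemma two_or (r : ℕ) {p q : ℤ} (h : p ≠ 0 ∨ q ≠ 0) : (2 ^ r * p ≠ 0 ∨ q ≠ 0) := by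
  rcases h with h0 | h0
  · exact Or.inl (mul_ne_zero (by positivity) h0)
  · exact Or.inr h0

private lemma sym_Go {r s : ℕ} {G : ℤ → ℤ → ℤ} (h : Sym r s G) : Sym 0 (r + s) (Go r G) := by
  refine ⟨?_, ?_⟩
  · intro k p q hk hpq
    have e := h.1 k (2 ^ r * p) q hk (two_or r hpq)
    have e1 : 2 ^ r * (k * p) = k * (2 ^ r * p) := by ring
    simp only [Go]
    rw [e1, e]
  · intro a b c d hdet _ hc
    obtain ⟨c', hc'⟩ := hc
    obtain ⟨k, hk⟩ := h.2 a (2 ^ r * b) (2 ^ s * c') d
      (by rw [← hdet, hc', pow_add]; ring) (Dvd.intro _ rfl) (Dvd.intro _ rfl)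
    refine ⟨(k : ℂ), ?_⟩
    intro p q hpq
    have e := hk (2 ^ r * p) q (two_or r hpq)
    simp only [act, Go] at e ⊢
    have e1 : 2 ^ r * (a * p + b * q) = a * (2 ^ r * p) + 2 ^ r * b * q := by ring
    have e2 : c * p + d * q = 2 ^ s * c' * (2 ^ r * p) + d * q := by
      rw [hc', pow_add]
      ring
    rw [e1, e2, e, Int.cast_add]

private lemma Tl_Go (l r : ℕ) (G : ℤ → ℤ → ℤ) : Tl l 1 (Go r G) = Go r (Tl l (2 ^ r) G) := by
  funext p q
  simp only [Tl, Go]
  rw [Int.cast_add, Int.cast_sum]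
  congr 1
  · congr 2
    ring
  · refine Finset.sum_congr rfl ?_
    intro j _
    congr 2
    ring

private lemma homog_Tl {G : ℤ → ℤ → ℤ} (l : ℕ) (hl : 0 < l) (m : ℤ) (h : Homog G) :
    Homog (Tl l m G) := by
  intro k p q hk hpq
  have hl0 : (l : ℤ) ≠ 0 := by exact_mod_cast hl.ne'
  simp only [Tl]
  congr 1
  · have e := h k (l * p) q hk (by
      rcases hpq with h0 | h0
      · exact Or.inl (mul_ne_zero hl0 h0)
      · exact Or.inr h0)
    rw [← e]
    congr 1
    ring
  · refine Finset.sum_congr rfl ?_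
    intro j _
    have e := h k (p + m * j * q) (l * q) hk (by
      by_cases hq : q = 0
      · left
        rcases hpq with h0 | h0
        · rw [hq, mul_zero, add_zero]
          exact h0
        · exact absurd hq h0
      · exact Or.inr (mul_ne_zero hl0 hq))
    rw [← e]
    congr 1
    · ring
    · ring

private lemma iter_Go (l r : ℕ) (G : ℤ → ℤ → ℤ) (i : ℕ) :
    (Tl l 1)^[i] (Go r G) = Go r ((Tl l (2 ^ r))^[i] G) := by
  induction i with
  | zero => rfl
  | succ i ih => rw [Function.iterate_succ_apply', Function.iterate_succ_apply', ih, Tl_Go]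

private lemma iter_homog {G : ℤ → ℤ → ℤ} (l : ℕ) (hl : 0 < l) (m : ℤ) (h : Homog G) (i : ℕ) :
    Homog ((Tl l m)^[i] G) := by
  induction i with
  | zero => exact h
  | succ i ih =>
    rw [Function.iterate_succ_apply']
    exact homog_Tl l hl m ih

/-- `UNBT`. -/
theorem hUnbT : UnbT := by
  intro l r s G _ hG
  refine ⟨sym_Go hG, ?_⟩
  intro i j
  change evX l (Go r G) i j = _
  rw [evX_apply, iter_Go, iter_Go]
  have hH : Homog ((Tl 3 (2 ^ r))^[i] ((Tl 5 (2 ^ r))^[j] G)) :=
    iter_homog 3 (by norm_num) _ (iter_homog 5 (by norm_num) _ hG.1 j) i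
  have e := hH (2 ^ r) 1 0 (by positivity) (Or.inl one_ne_zero)
  rw [mul_zero] at e
  unfold evXb eXb eX
  rw [Int.cast_sum]
  refine Finset.sum_congr rfl ?_
  intro a _
  simp only [Go]
  rw [e, zsmul_eq_mul, zsmul_eq_mul, Int.cast_mul, Int.cast_sub]
  push_cast
  rfl

end Pool.Agent.Helper85.TT
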