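import Pool.Agent.Helper95.TT.St

set_option autoImplicit false

namespace Pool.Agent.Helper85.TT

open Pool.Agent.Helper95.TT
open NumberField IsDedekindDomain Polynomial Filter Topology
open scoped Classical

section
variable {K : Type} [Field K] [NumberField K]

theorem q_two_le (v : Pr K) : 2 ≤ q v := by
  have h0 : q v ≠ 0 := by
    intro h
    unfold q at h
    rw [Ideal.absNorm_eq_zero_iff] at h
    exact v.ne_bot h
  have h1 : q v ≠ 1 := by
    intro h
    unfold q at h
    rw [Ideal.absNorm_eq_one_iff] at h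
    exact v.isPrime.ne_top h
  omega

theorem wt_nonneg (s : ℝ) (v : Pr K) : 0 ≤ wt s v := by
  unfold wt
  have h2 : (2 : ℝ) ≤ q v := by exact_mod_cast q_two_le v
  exact mul_nonneg (Real.log_nonneg (by linarith)) (Real.rpow_nonneg (by linarith) _)

theorem wt_le_one (s : ℝ) (hs : 1 < s) (v : Pr K) : wt s v ≤ 1 := by
  unfold wt
  have h2 : (2 : ℝ) ≤ q v := by exact_mod_cast q_two_le v
  have hpos : (0 : ℝ) < q v := by linarith
  have h3 : Real.log (q v) ≤ q v := by
    have := Real.log_le_sub_one_of_pos hpos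
    linarith
  have h4 : (q v : ℝ) ^ (-s) ≤ (q v : ℝ) ^ (-1 : ℝ) :=
    Real.rpow_le_rpow_of_exponent_le (by linarith) (by linarith)
  have h5 : (q v : ℝ) ^ (-1 : ℝ) = (q v : ℝ)⁻¹ := Real.rpow_neg_one _
  calc Real.log (q v) * (q v : ℝ) ^ (-s) ≤ (q v : ℝ) * (q v : ℝ)⁻¹ := by
        rw [← h5]
        exact mul_le_mul h3 h4 (Real.rpow_nonneg hpos.le _) hpos.le
    _ = 1 := mul_inv_cancel₀ hpos.ne'

end

theorem hA4 (hA2 : StA2) (hA3 : StA3) : StA4 := by
  intro k _ _ E hE
  obtain ⟨L, hLf, hLn, π, hq, hfin, hsq, hns⟩ := hA3 k E hE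
  obtain ⟨sk, tk⟩ := hA2 k
  obtain ⟨sL, tL⟩ := hA2 L
  have hE0 : E ≠ 0 := by
    rintro rfl
    exact hE (by simp)
  have h2E : (2 * E : 𝓞 k) ≠ 0 := mul_ne_zero two_ne_zero hE0
  have hbad : {v : Pr k | 2 * E ∈ v.asIdeal}.Finite := by
    have h1 := Ideal.finite_factors (R := 𝓞 k) (I := Ideal.span {2 * E}) (by
      intro h
      exact h2E (Ideal.span_singleton_eq_bot.mp h))
    refine h1.subset ?_
    intro v hv
    simp only [Set.mem_setOf_eq] at hv ⊢
    rw [Ideal.dvd_span_singleton]
    exact hv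
  -- the majorant
  let D : Pr k → ℝ := fun v => 2 * wt 2 v + (if 2 * E ∈ v.asIdeal then 2 else 0)
  have hD : Summable D := by
    refine ((sk 2 (by norm_num)).mul_left 2).add ?_
    refine summable_of_finite_support ?_
    refine hbad.subset ?_
    intro v hv
    by_contra h
    simp only [Set.mem_setOf_eq] at h
    simp [h] at hv
  let g : ℝ → Pr k → ℝ := fun s v => ∑' c : {w // π w = v}, wt s c.1
  -- fibre sums
  have hfib : ∀ (s : ℝ) (v : Pr k) (T : Finset (Pr L)), {w | π w = v} = (T : Set (Pr L)) →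
      g s v = ∑ w ∈ T, wt s w := by
    intro s v T hT
    have h1 : g s v = ∑' c : ({w | π w = v} : Set (Pr L)), wt s c.1 := rfl
    rw [h1, tsum_congr_set_coe (fun w => wt s w) hT, Finset.tsum_subtype']
  have hsumL : ∀ s : ℝ, 1 < s → Summable (fun x : (Σ v, {w // π w = v}) => wt s x.2.1) := by
    intro s hs
    exact (Equiv.sigmaFiberEquiv π).summable_iff.mpr (sL s hs)
  have hTL : ∀ s : ℝ, 1 < s → ∑' w : Pr L, wt s w = ∑' v, g s v := by
    intro s hs
    rw [← (Equiv.sigmaFiberEquiv π).tsum_eq (fun w => wt s w)]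
    exact (hsumL s hs).tsum_sigma
  have hgs : ∀ s : ℝ, 1 < s → Summable (g s) := fun s hs => (hsumL s hs).sigma
  have hchi : ∀ v : Pr k, |chi E v| ≤ 1 := by
    intro v
    unfold chi
    split_ifs <;> simp
  have hcs : ∀ s : ℝ, 1 < s → Summable (fun v : Pr k => chi E v * wt s v) := by
    intro s hs
    refine Summable.of_norm_bounded (sk s hs) ?_
    intro v
    rw [norm_mul, Real.norm_eq_abs, Real.norm_eq_abs, abs_of_nonneg (wt_nonneg s v)]
    calc |chi E v| * wt s v ≤ 1 * wt s v :=
          mul_le_mul_of_nonneg_right (hchi v) (wt_nonneg s v)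
      _ = wt s v := one_mul _
  -- pointwise comparison
  have hpt : ∀ s : ℝ, 1 < s → ∀ v : Pr k, |g s v - (wt s v + chi E v * wt s v)| ≤ D v := by
    intro s hs v
    have hw2 : 0 ≤ 2 * wt 2 v := mul_nonneg (by norm_num) (wt_nonneg 2 v)
    by_cases hb : 2 * E ∈ v.asIdeal
    · have hc : chi E v = 0 := by
        unfold chi
        rw [if_pos hb]
      have hDv : D v = 2 * wt 2 v + 2 := by
        show 2 * wt 2 v + (if 2 * E ∈ v.asIdeal then (2 : ℝ) else 0) = _
        rw [if_pos hb]
      obtain ⟨hf1, hf2⟩ := hfin v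
      have h1 : g s v = ∑ w ∈ hf1.toFinset, wt s w := hfib s v _ (by simp)
      have hcard : hf1.toFinset.card ≤ 2 := by
        rw [← Set.ncard_eq_toFinset_card _ hf1]
        exact hf2
      have h2 : g s v ≤ 2 := by
        rw [h1]
        calc ∑ w ∈ hf1.toFinset, wt s w ≤ ∑ _w ∈ hf1.toFinset, (1 : ℝ) :=
              Finset.sum_le_sum fun w _ => wt_le_one s hs w
          _ = (hf1.toFinset.card : ℝ) := by simp
          _ ≤ 2 := by exact_mod_cast hcard
      have h3 : 0 ≤ g s v := by
        rw [h1]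
        exact Finset.sum_nonneg fun w _ => wt_nonneg s w
      have h4 := wt_le_one s hs v
      have h5 := wt_nonneg s v
      rw [hc, hDv, abs_le]
      constructor <;> linarith
    · have hDv : D v = 2 * wt 2 v := by
        show 2 * wt 2 v + (if 2 * E ∈ v.asIdeal then (2 : ℝ) else 0) = _
        rw [if_neg hb, add_zero]
      by_cases ha : ∃ a : 𝓞 k, a ^ 2 - E ∈ v.asIdeal
      · obtain ⟨w₁, w₂, hne, hset, hq1, hq2⟩ := hsq v hb ha
        have hc : chi E v = 1 := by
          unfold chi
          rw [if_neg hb, if_pos ha]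
        have h1 : g s v = ∑ w ∈ ({w₁, w₂} : Finset (Pr L)), wt s w :=
          hfib s v _ (by rw [hset]; simp)
        rw [Finset.sum_pair hne] at h1
        have h2 : wt s w₁ = wt s v := by unfold wt; rw [hq1]
        have h3 : wt s w₂ = wt s v := by unfold wt; rw [hq2]
        rw [h1, h2, h3, hc, hDv, one_mul, sub_self, abs_zero]
        exact hw2
      · obtain ⟨w, hset, hqw⟩ := hns v hb ha
        have hc : chi E v = -1 := by
          unfold chi
          rw [if_neg hb, if_neg ha]
        have h1 : g s v = ∑ w' ∈ ({w} : Finset (Pr L)), wt s w' :=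
          hfib s v _ (by rw [hset]; simp)
        rw [Finset.sum_singleton] at h1
        have hq2 : (2 : ℝ) ≤ q v := by exact_mod_cast q_two_le v
        have hpos : (0 : ℝ) < q v := by linarith
        have h2 : wt s w ≤ 2 * wt 2 v := by
          unfold wt
          rw [hqw]
          push_cast
          rw [Real.log_pow]
          have h3 : ((q v : ℝ) ^ 2) ^ (-s) ≤ (q v : ℝ) ^ (-2 : ℝ) := by
            rw [← Real.rpow_natCast, ← Real.rpow_mul hpos.le]
            refine Real.rpow_le_rpow_of_exponent_le (by linarith) ?_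
            push_cast
            linarith
          have h4 : 0 ≤ Real.log (q v) := Real.log_nonneg (by linarith)
          push_cast
          nlinarith [mul_le_mul_of_nonneg_left h3 h4]
        have h3 := wt_nonneg s w
        rw [h1, hc, hDv, abs_le]
        constructor <;> linarith
  -- global comparison
  have hgl : ∀ s : ℝ, 1 < s →
      |(∑' w : Pr L, wt s w) - ((∑' v : Pr k, wt s v) + ∑' v : Pr k, chi E v * wt s v)| ≤ ∑' v, D v := by
    intro s hs
    have h1 : Summable (fun v : Pr k => wt s v + chi E v * wt s v) := (sk s hs).add (hcs s hs)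
    rw [hTL s hs, ← (sk s hs).tsum_add (hcs s hs), ← (hgs s hs).tsum_sub h1]
    have h2 : Summable (fun v => g s v - (wt s v + chi E v * wt s v)) := (hgs s hs).sub h1
    have h3 : Summable (fun v => ‖g s v - (wt s v + chi E v * wt s v)‖) := by
      refine Summable.of_nonneg_of_le (fun v => norm_nonneg _) (fun v => ?_) hD
      rw [Real.norm_eq_abs]
      exact hpt s hs v
    rw [← Real.norm_eq_abs]
    refine (norm_tsum_le_tsum_norm h3).trans ?_
    refine h3.tsum_le_tsum (fun v => ?_) hD
    rw [Real.norm_eq_abs]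
    exact hpt s hs v
  set C : ℝ := ∑' v, D v with hC
  -- conclusion
  have hs0 : Tendsto (fun s : ℝ => (s - 1) * C) (𝓝[>] 1) (𝓝 0) := by
    have h1 : Tendsto (fun s : ℝ => (s - 1) * C) (𝓝 1) (𝓝 ((1 - 1) * C)) :=
      Continuous.tendsto (by fun_prop) 1
    rw [sub_self, zero_mul] at h1
    exact h1.mono_left nhdsWithin_le_nhds
  have hdiff : Tendsto (fun s : ℝ => (s - 1) * (∑' w : Pr L, wt s w) - (s - 1) * (∑' v : Pr k, wt s v))
      (𝓝[>] 1) (𝓝 0) := by
    have := tL.sub tk
    rwa [sub_self] at this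
  have hdist : Tendsto (fun s : ℝ => (s - 1) * (∑' v : Pr k, chi E v * wt s v) -
      ((s - 1) * (∑' w : Pr L, wt s w) - (s - 1) * (∑' v : Pr k, wt s v))) (𝓝[>] 1) (𝓝 0) := by
    refine squeeze_zero_norm' ?_ hs0
    filter_upwards [self_mem_nhdsWithin] with s hs
    have hs1 : (1 : ℝ) < s := hs
    have h1 := hgl s hs1
    have h2 : (s - 1) * (∑' v : Pr k, chi E v * wt s v) -
      ((s - 1) * (∑' w : Pr L, wt s w) - (s - 1) * (∑' v : Pr k, wt s v)) =
      -((s - 1) * ((∑' w : Pr L, wt s w) - ((∑' v : Pr k, wt s v) + ∑' v : Pr k, chi E v * wt s v))) := by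
      ring
    rw [h2, norm_neg, norm_mul, Real.norm_eq_abs, Real.norm_eq_abs, abs_of_pos (by linarith : 0 < s - 1)]
    exact mul_le_mul_of_nonneg_left h1 (by linarith)
  have := hdist.add hdiff
  simpa using this

end Pool.Agent.Helper85.TT
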